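import Pool.Agent.H87.EBK.Stmts3

/-!
# Board `ebt`: row GRE, greedy choice
-/

set_option autoImplicit false

namespace Pool.EBK

theorem gre_aux {B : Type} [DecidableEq B] (S : B → Set ℚ) (F : Finset ℚ)
    (h : ∀ b, ∀ F' : Finset ℚ, ∃ r ∈ S b, r ∉ F') (s : Finset B) :
    ∃ m : B → ℚ, Set.InjOn m (s : Set B) ∧ ∀ b ∈ s, m b ∈ S b ∧ m b ∉ F := by
  induction s using Finset.induction_on with
  | empty => exact ⟨fun _ => 0, by simp, by simp⟩
  | insert a s ha ih =>
    obtain ⟨m, hm1, hm2⟩ := ih
    obtain ⟨r, hr1, hr2⟩ := h a (F ∪ s.image m)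
    rw [Finset.mem_union, not_or] at hr2
    obtain ⟨hr2, hr3⟩ := hr2
    have hne : ∀ b ∈ s, Function.update m a r b = m b := by
      intro b hb
      have hba : b ≠ a := by
        rintro rfl
        exact ha hb
      rw [Function.update_of_ne hba]
    refine ⟨Function.update m a r, ?_, ?_⟩
    · intro b hb c hc hbc
      rw [Finset.mem_coe, Finset.mem_insert] at hb hc
      rcases hb with rfl | hb <;> rcases hc with rfl | hc
      · rfl
      · rw [Function.update_self, hne c hc] at hbc
        exact absurd (Finset.mem_image.mpr ⟨c, hc, hbc.symm⟩) hr3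
      · rw [Function.update_self, hne b hb] at hbc
        exact absurd (Finset.mem_image.mpr ⟨b, hb, hbc⟩) hr3
      · rw [hne b hb, hne c hc] at hbc
        exact hm1 (Finset.mem_coe.mpr hb) (Finset.mem_coe.mpr hc) hbc
    · intro b hb
      rw [Finset.mem_insert] at hb
      rcases hb with rfl | hb
      · rw [Function.update_self]
        exact ⟨hr1, hr2⟩
      · rw [hne b hb]
        exact hm2 b hb

theorem gre : GRE := by
  intro B _ S F h
  classical
  have : Fintype B := Fintype.ofFinite B
  obtain ⟨m, h1, h2⟩ := gre_aux S F h Finset.univ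
  refine ⟨m, ?_, fun b => h2 b (Finset.mem_univ b)⟩
  intro b c hbc
  exact h1 (Finset.mem_coe.mpr (Finset.mem_univ b)) (Finset.mem_coe.mpr (Finset.mem_univ c)) hbc

end Pool.EBK
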